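import Pool.Agent.H958.RO.Stm

set_option autoImplicit false

namespace Pool.Agent.H32.RO.Leaf

open Pool.Agent.H958.RO

theorem ic_cons {n : ℕ} (bl : Fin n → ℕ) {G : SimpleGraph (Fin n)} {a b c : Fin n}
    (h : G.Adj a c) (p : G.Walk c b) :
    ic bl (SimpleGraph.Walk.cons h p) = (if bl a ≠ bl c then 1 else 0) + ic bl p := by
  unfold ic
  rw [SimpleGraph.Walk.darts_cons]
  by_cases hb : bl a = bl c
  · rw [List.filter_cons_of_neg (by simp [hb]), if_neg (by simp [hb])]
    omega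
  · rw [List.filter_cons_of_pos (by simp [hb]), if_pos hb, List.length_cons]
    omega

theorem adj_erase {n : ℕ} {E : Finset (Fin n × Fin n)} {S : Finset (Fin n)} {v a c : Fin n}
    (ha : a ≠ v) (hc : c ≠ v) (h : (GG (res E S)).Adj a c) :
    (GG (res E (S.erase v))).Adj a c := by
  obtain ⟨h1, h2⟩ := h
  refine ⟨h1, ?_⟩
  unfold res at h2 ⊢
  simp only [Finset.mem_filter, Finset.mem_erase] at h2 ⊢
  tauto

theorem adj_mem {n : ℕ} {E : Finset (Fin n × Fin n)} {S : Finset (Fin n)} {v w : Fin n}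
    (h : (GG (res E S)).Adj v w) : w ∈ S ∧ (GG E).Adj v w := by
  obtain ⟨h1, h2⟩ := h
  unfold res at h2
  simp only [Finset.mem_filter] at h2
  refine ⟨?_, h1, ?_⟩ <;> tauto

open scoped Classical in
theorem uniq {n : ℕ} {E : Finset (Fin n × Fin n)} {S : Finset (Fin n)} {v w c : Fin n}
    (hd : dg E S v ≤ 1) (hw : (GG (res E S)).Adj v w) (hc : (GG (res E S)).Adj v c) : w = c := by
  unfold dg at hd
  rw [Finset.card_le_one] at hd
  exact hd w (by rw [Finset.mem_filter]; exact adj_mem hw) c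
    (by rw [Finset.mem_filter]; exact adj_mem hc)

theorem key {n : ℕ} (E : Finset (Fin n × Fin n)) (bl : Fin n → ℕ) (S : Finset (Fin n))
    (v : Fin n) (hd : dg E S v ≤ 1) {a b : Fin n} (p : (GG (res E S)).Walk a b) (hb : b ≠ v) :
    (a ≠ v → ∃ q : (GG (res E (S.erase v))).Walk a b, ic bl q ≤ ic bl p) ∧
    (a = v → ∀ w, (GG (res E S)).Adj v w →
      ∃ q : (GG (res E (S.erase v))).Walk w b, ic bl q ≤ ic bl p) := by
  induction p with
  | nil =>
    exact ⟨fun _ => ⟨SimpleGraph.Walk.nil, le_rfl⟩, fun h => absurd h hb⟩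
  | @cons a c b h p ih =>
    obtain ⟨ih1, ih2⟩ := ih hb
    have hle : ic bl p ≤ ic bl (SimpleGraph.Walk.cons h p) := by
      rw [ic_cons]; omega
    constructor
    · intro ha
      by_cases hc : c = v
      · obtain ⟨q, hq⟩ := ih2 hc a (by rw [← hc]; exact h.symm)
        exact ⟨q, hq.trans hle⟩
      · obtain ⟨q, hq⟩ := ih1 hc
        refine ⟨SimpleGraph.Walk.cons (adj_erase ha hc h) q, ?_⟩
        rw [ic_cons, ic_cons]
        omega
    · intro ha w hw
      have hvc : (GG (res E S)).Adj v c := by rw [← ha]; exact h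
      have hwc : w = c := uniq hd hw hvc
      have hcv : c ≠ v := fun hcv => by
        rw [hcv] at hvc
        exact hvc.1 rfl
      obtain ⟨q, hq⟩ := ih1 hcv
      rw [hwc]
      exact ⟨q, hq.trans hle⟩

theorem main : Pool.Agent.H958.RO.S_LEAF := by
  intro n E bl S k v a b hd ha hb hn
  obtain ⟨p, hp⟩ := hn
  obtain ⟨q, hq⟩ := (key E bl S v hd p hb).1 ha
  exact ⟨q, hq.trans hp⟩

end Pool.Agent.H32.RO.Leaf
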